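import Pool.Agent.W989.TN.Stm

set_option autoImplicit false

namespace Pool.Agent.W460.TN

open Filter Pool.Agent.W989.TN

theorem t_NUM : NUM := by
  intro δ hδ hδ1
  obtain ⟨B, hB⟩ : ∃ B, B = Real.logb 2 (16 / δ) := ⟨_, rfl⟩
  have hB4 : 4 ≤ B := by
    rw [hB, Real.le_logb_iff_rpow_le (by norm_num) (by positivity)]
    rw [show (4 : ℝ) = ((4 : ℕ) : ℝ) by norm_num, Real.rpow_natCast]
    rw [le_div_iff₀ hδ]
    nlinarith
  obtain ⟨A, hAd⟩ : ∃ A, A = (δ / 4) ^ 2 / (2 ^ 20 * B ^ 2) := ⟨_, rfl⟩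
  have hA : 0 < A := by
    rw [hAd]
    positivity
  have hA1 : A ≤ 1 := by
    rw [hAd, div_le_one (by positivity)]
    nlinarith
  have hgam : ∀ l : ℝ, gam (δ / 4) l = A / l ^ 3 := by
    intro l
    unfold gam
    rw [show 4 / (δ / 4) = 16 / δ by field_simp; norm_num, ← hB, hAd, div_div]
  refine ⟨A / 128, by positivity, ?_⟩
  obtain ⟨Y0, hY0⟩ : ∃ Y0 : ℝ, ∀ y : ℝ, Y0 ≤ y → y ^ 4 * Real.exp (-y) < A / 512 :=
    eventually_atTop.mp ((Real.tendsto_pow_mul_exp_neg_atTop_nhds_zero 4).eventually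
      (gt_mem_nhds (show (0 : ℝ) < A / 512 by positivity)))
  have htend : Tendsto (fun N : ℕ => Real.log (Real.log N)) atTop atTop :=
    Real.tendsto_log_atTop.comp (Real.tendsto_log_atTop.comp tendsto_natCast_atTop_atTop)
  obtain ⟨N₀, hN₀⟩ := eventually_atTop.mp (htend.eventually_ge_atTop (max 5 Y0))
  refine ⟨N₀, fun N z P hN hz2 hz hP1 hP2 => ?_⟩
  have hyy := hN₀ N hN
  obtain ⟨M, hM⟩ : ∃ M, M = Real.log (N : ℝ) := ⟨_, rfl⟩
  rw [← hM] at hyy ⊢
  obtain ⟨y, hy⟩ : ∃ y, y = Real.log M := ⟨_, rfl⟩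
  rw [← hy] at hyy ⊢
  have hy5 : 5 ≤ y := (le_max_left _ _).trans hyy
  have hyY : Y0 ≤ y := (le_max_right _ _).trans hyy
  have hMnn : 0 ≤ M := by rw [hM]; exact Real.log_natCast_nonneg N
  have hMpos : 0 < M := by
    rcases hMnn.lt_or_eq with h | h
    · exact h
    · exfalso
      rw [hy, ← h, Real.log_zero] at hy5
      linarith
  have hNpos : (0 : ℝ) < N := by
    rcases (Nat.cast_nonneg N : (0 : ℝ) ≤ N).lt_or_eq with h | h
    · exact h
    · exfalso
      rw [hM, ← h, Real.log_zero] at hMpos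
      linarith
  have hexpy : Real.exp y = M := by rw [hy]; exact Real.exp_log hMpos
  have hexpM : Real.exp M = N := by rw [hM]; exact Real.exp_log hNpos
  have hM16 : 16 ≤ M := by
    rw [← hexpy]
    have := Real.quadratic_le_exp_of_nonneg (show 0 ≤ y by linarith)
    nlinarith
  have hyM : y ≤ M := by
    rw [← hexpy]
    have := Real.add_one_le_exp y
    linarith
  have hNM : 8 * M ≤ N := by
    rw [← hexpM]
    have := Real.quadratic_le_exp_of_nonneg hMnn
    nlinarith
  have hN1 : (1 : ℝ) ≤ N := by linarith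
  have hlog2 : (0.69 : ℝ) < Real.log 2 := by
    have := Real.log_two_gt_d9
    linarith
  have hlog2' : Real.log 2 < 0.7 := by
    have := Real.log_two_lt_d9
    linarith
  -- the size of z
  have hz4 : (z : ℝ) ≤ 4 * M := by
    have h1 : (Nat.clog 2 (2 * N) : ℝ) < Real.logb 2 (2 * N) + 1 := by
      have h2 := Real.natCeil_logb_natCast 2 (2 * N)
      rw [← h2]
      push_cast
      refine Nat.ceil_lt_add_one ?_
      exact Real.logb_nonneg (by norm_num) (by linarith)
    have h3 : Real.logb 2 (2 * N) = 1 + M / Real.log 2 := by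
      rw [Real.logb_mul (by norm_num) hNpos.ne', Real.logb_self_eq_one (by norm_num), hM]
      rfl
    have h4 : M / Real.log 2 ≤ M * 1.5 := by
      rw [div_le_iff₀ (by linarith)]
      nlinarith
    have h5 : (z : ℝ) ≤ 2 * Nat.clog 2 (2 * N) := by exact_mod_cast hz
    linarith
  have hz2' : (2 : ℝ) ≤ z := by exact_mod_cast hz2
  obtain ⟨l, hl⟩ : ∃ l, l = Real.logb 2 (z : ℝ) := ⟨_, rfl⟩
  rw [← hl]
  have hl1 : 1 ≤ l := by
    rw [hl, Real.le_logb_iff_rpow_le (by norm_num) (by linarith), Real.rpow_one]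
    exact hz2'
  have hl4 : l ≤ 4 * y := by
    have h1 : l ≤ Real.logb 2 (4 * M) := by
      rw [hl]
      exact Real.logb_le_logb_of_le (by norm_num) (by linarith) hz4
    have h2 : Real.logb 2 (4 * M) = 2 + y / Real.log 2 := by
      rw [Real.logb_mul (by norm_num) hMpos.ne', hy]
      have : Real.logb 2 4 = 2 := by
        rw [show (4 : ℝ) = 2 ^ (2 : ℝ) by norm_num, Real.logb_rpow (by norm_num) (by norm_num)]
      rw [this]
      rfl
    have h4 : y / Real.log 2 ≤ y * 1.5 := by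
      rw [div_le_iff₀ (by linarith)]
      nlinarith
    linarith
  have hlpos : 0 < l := by linarith
  have hP1' : (0 : ℝ) < P := by
    have : ((2 * N : ℕ) : ℝ) ≤ P := by exact_mod_cast hP1
    push_cast at this
    linarith
  have hP2' : (P : ℝ) ≤ 2 * N * z := by exact_mod_cast hP2
  constructor
  · rw [← Real.rpow_add hP1', show δ / 4 + δ / 4 = δ / 2 by ring]
    have h1 : (P : ℝ) ≤ (N : ℝ) ^ (2 : ℝ) := by
      rw [Real.rpow_two]
      calc (P : ℝ) ≤ 2 * N * z := hP2'
        _ = N * (2 * z) := by ring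
        _ ≤ N * N := mul_le_mul_of_nonneg_left (by linarith) hNpos.le
        _ = (N : ℝ) ^ 2 := by ring
    calc (P : ℝ) ^ (δ / 2) ≤ ((N : ℝ) ^ (2 : ℝ)) ^ (δ / 2) :=
          Real.rpow_le_rpow hP1'.le h1 (by positivity)
      _ = (N : ℝ) ^ δ := by
          rw [← Real.rpow_mul hNpos.le]
          congr 1
          ring
  · rw [hgam]
    have hg0 : 0 ≤ A / l ^ 3 := by positivity
    have hl3 : 1 ≤ l ^ 3 := one_le_pow₀ hl1
    have hg1 : A / l ^ 3 ≤ 1 := by
      rw [div_le_one (by positivity)]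
      linarith
    have hypos : 0 < y := by linarith
    have hg2 : 2 * (A / 128 / y ^ 3) ≤ A / l ^ 3 := by
      have h1 : l ^ 3 ≤ (4 * y) ^ 3 := pow_le_pow_left₀ hlpos.le hl4 3
      have h2 : 2 * (A / 128 / y ^ 3) = A / (4 * y) ^ 3 := by
        field_simp
        norm_num
      rw [h2]
      exact div_le_div_of_nonneg_left hA.le (by positivity) h1
    generalize A / l ^ 3 = g at hg0 hg1 hg2
    have h1 : (P : ℝ) ^ (1 - g) ≤ 2 * z * (N : ℝ) ^ (1 - 2 * (A / 128 / y ^ 3)) := by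
      calc (P : ℝ) ^ (1 - g) ≤ (2 * N * z) ^ (1 - g) :=
            Real.rpow_le_rpow hP1'.le hP2' (by linarith)
        _ = ((2 * z) * N) ^ (1 - g) := by
            congr 1
            ring
        _ = (2 * z : ℝ) ^ (1 - g) * (N : ℝ) ^ (1 - g) :=
            Real.mul_rpow (by linarith) hNpos.le
        _ ≤ (2 * z : ℝ) ^ (1 : ℝ) * (N : ℝ) ^ (1 - 2 * (A / 128 / y ^ 3)) := by
            refine mul_le_mul ?_ ?_ (by positivity) (by positivity)
            · exact Real.rpow_le_rpow_of_exponent_le (by linarith) (by linarith)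
            · exact Real.rpow_le_rpow_of_exponent_le hN1 (by linarith)
        _ = 2 * z * (N : ℝ) ^ (1 - 2 * (A / 128 / y ^ 3)) := by rw [Real.rpow_one]
    have h2 : 8192 * M ^ 2 ≤ (N : ℝ) ^ (A / 128 / y ^ 3) := by
      rw [Real.rpow_def_of_pos hNpos, ← hM]
      have h3 : 8192 * M ^ 2 = Real.exp (Real.log 8192 + 2 * y) := by
        rw [Real.exp_add, Real.exp_log (by norm_num), ← hexpy, ← Real.exp_nat_mul]
        norm_num
      rw [h3]
      refine Real.exp_le_exp.mpr ?_
      have h4 : Real.log 8192 ≤ 10 := by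
        rw [show (8192 : ℝ) = 2 ^ 13 by norm_num, Real.log_pow]
        push_cast
        linarith
      have h5 := hY0 y hyY
      have h6 : y ^ 4 < A / 512 * M := by
        rw [Real.exp_neg, hexpy, ← div_eq_mul_inv, div_lt_iff₀ hMpos] at h5
        exact h5
      have h7 : M * (A / 128 / y ^ 3) = (M * A / 128) / y ^ 3 := by ring
      rw [h7, le_div_iff₀ (by positivity)]
      have h8 : (Real.log 8192 + 2 * y) * y ^ 3 ≤ (2 * y + 2 * y) * y ^ 3 :=
        mul_le_mul_of_nonneg_right (by linarith) (by positivity)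
      have h9 : (2 * y + 2 * y) * y ^ 3 = 4 * y ^ 4 := by ring
      linarith
    have h3 : (N : ℝ) ^ (1 - A / 128 / y ^ 3) =
        (N : ℝ) ^ (A / 128 / y ^ 3) * (N : ℝ) ^ (1 - 2 * (A / 128 / y ^ 3)) := by
      rw [← Real.rpow_add hNpos]
      congr 1
      ring
    rw [h3]
    calc 256 * l * (P : ℝ) ^ (1 - g)
        ≤ 256 * (4 * M) * (2 * (4 * M) * (N : ℝ) ^ (1 - 2 * (A / 128 / y ^ 3))) := by
          refine mul_le_mul (by linarith) (h1.trans ?_) (by positivity) (by positivity)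
          exact mul_le_mul_of_nonneg_right (by linarith) (by positivity)
      _ = 8192 * M ^ 2 * (N : ℝ) ^ (1 - 2 * (A / 128 / y ^ 3)) := by ring
      _ ≤ _ := mul_le_mul_of_nonneg_right h2 (by positivity)

end Pool.Agent.W460.TN
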